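import Mathlib

/-!
# Conditioning on the places with values in a set
-/

set_option autoImplicit false

namespace Pool.Agent.H84.EV

variable {n : ℕ}

/-- the values of entry `i` if it is in `V` exactly for `i ∈ H` -/
def AH (A : Fin n → Finset ℕ) (V : Finset ℕ) (H : Finset (Fin n)) (i : Fin n) : Finset ℕ :=
  if i ∈ H then A i ∩ V else A i \ V

theorem AH_sub (A : Fin n → Finset ℕ) (V : Finset ℕ) (H : Finset (Fin n)) (i : Fin n) :
    AH A V H i ⊆ A i := by
  unfold AH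
  split_ifs
  · exact Finset.inter_subset_left
  · exact Finset.sdiff_subset

theorem split_H (A : Fin n → Finset ℕ) (V : Finset ℕ) (f : (Fin n → ℕ) → ℝ) :
    ∑ x ∈ Fintype.piFinset A, f x =
      ∑ H : Finset (Fin n), ∑ x ∈ Fintype.piFinset (AH A V H), f x := by
  classical
  rw [← Finset.sum_fiberwise (Fintype.piFinset A) (fun x => Finset.univ.filter fun i => x i ∈ V) f]
  refine Finset.sum_congr rfl fun H _ => Finset.sum_congr ?_ fun _ _ => rfl
  ext x
  rw [Finset.mem_filter, Fintype.mem_piFinset, Fintype.mem_piFinset]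
  constructor
  · rintro ⟨h1, h2⟩ i
    unfold AH
    split_ifs with h
    · rw [← h2, Finset.mem_filter] at h
      exact Finset.mem_inter.2 ⟨h1 i, h.2⟩
    · rw [← h2, Finset.mem_filter, not_and] at h
      exact Finset.mem_sdiff.2 ⟨h1 i, h (Finset.mem_univ _)⟩
  · intro h
    refine ⟨fun i => AH_sub A V H i (h i), ?_⟩
    ext i
    rw [Finset.mem_filter]
    have hi := h i
    unfold AH at hi
    split_ifs at hi with h'
    · exact ⟨fun _ => h', fun _ => ⟨Finset.mem_univ _, (Finset.mem_inter.1 hi).2⟩⟩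
    · exact ⟨fun h2 => absurd h2.2 (Finset.mem_sdiff.1 hi).2, fun h2 => absurd h2 h'⟩

/-- the masses of the pieces -/
noncomputable def mass (A : Fin n → Finset ℕ) (w : Fin n → ℕ → ℝ) (V : Finset ℕ)
    (H : Finset (Fin n)) (i : Fin n) : ℝ := ∑ a ∈ AH A V H i, w i a

theorem mass_sum (A : Fin n → Finset ℕ) (w : Fin n → ℕ → ℝ) (V : Finset ℕ)
    (h1 : ∀ i, ∑ a ∈ A i, w i a = 1) : ∑ H : Finset (Fin n), ∏ i, mass A w V H i = 1 := by
  have h := split_H A V fun x => ∏ i, w i (x i)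
  rw [← Finset.prod_univ_sum] at h
  have h2 : ∏ i, ∑ a ∈ A i, w i a = 1 := Finset.prod_eq_one fun i _ => h1 i
  rw [h2] at h
  rw [h]
  refine Finset.sum_congr rfl fun H _ => ?_
  rw [← Finset.prod_univ_sum]
  rfl

theorem inner (A : Fin n → Finset ℕ) (w : Fin n → ℕ → ℝ) (V : Finset ℕ)
    (h0 : ∀ i, ∀ a ∈ A i, 0 ≤ w i a) (H : Finset (Fin n)) (F : (Fin n → ℕ) → ℝ) {B : ℝ}
    (h : (∀ i, 0 < mass A w V H i) → ∑ x ∈ Fintype.piFinset (AH A V H),
      (∏ i, w i (x i) / mass A w V H i) * F x ≤ B) :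
    ∑ x ∈ Fintype.piFinset (AH A V H), (∏ i, w i (x i)) * F x ≤ (∏ i, mass A w V H i) * B := by
  have hm : ∀ i, 0 ≤ mass A w V H i := fun i =>
    Finset.sum_nonneg fun a ha => h0 i a (AH_sub A V H i ha)
  by_cases hp : ∀ i, 0 < mass A w V H i
  · have hM : 0 < ∏ i, mass A w V H i := Finset.prod_pos fun i _ => hp i
    have h3 := mul_le_mul_of_nonneg_left (h hp) hM.le
    refine le_trans (le_of_eq ?_) h3
    rw [Finset.mul_sum]
    refine Finset.sum_congr rfl fun x _ => ?_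
    rw [← mul_assoc]
    congr 1
    rw [← Finset.prod_mul_distrib]
    refine Finset.prod_congr rfl fun i _ => ?_
    rw [mul_div_cancel₀ _ (hp i).ne']
  · push Not at hp
    obtain ⟨i, hi⟩ := hp
    have hi0 : mass A w V H i = 0 := le_antisymm hi (hm i)
    have hz : ∀ a ∈ AH A V H i, w i a = 0 := (Finset.sum_eq_zero_iff_of_nonneg
      fun a ha => h0 i a (AH_sub A V H i ha)).1 hi0
    have e1 : ∏ i, mass A w V H i = 0 := Finset.prod_eq_zero (Finset.mem_univ i) hi0
    rw [e1, zero_mul]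
    refine le_of_eq (Finset.sum_eq_zero fun x hx => ?_)
    rw [Finset.prod_eq_zero (Finset.mem_univ i) (hz _ (Fintype.mem_piFinset.1 hx i)), zero_mul]

/-- a bound for all the conditional means is a bound for the mean -/
theorem avgH (A : Fin n → Finset ℕ) (w : Fin n → ℕ → ℝ) (V : Finset ℕ)
    (h0 : ∀ i, ∀ a ∈ A i, 0 ≤ w i a) (h1 : ∀ i, ∑ a ∈ A i, w i a = 1)
    (F : (Fin n → ℕ) → ℝ) {B : ℝ}
    (h : ∀ H : Finset (Fin n), (∀ i, 0 < mass A w V H i) → ∑ x ∈ Fintype.piFinset (AH A V H),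
      (∏ i, w i (x i) / mass A w V H i) * F x ≤ B) :
    ∑ x ∈ Fintype.piFinset A, (∏ i, w i (x i)) * F x ≤ B := by
  rw [split_H A V]
  refine (Finset.sum_le_sum fun H _ => inner A w V h0 H F (h H)).trans (le_of_eq ?_)
  rw [← Finset.sum_mul, mass_sum A w V h1, one_mul]

/-- the same for probabilities -/
theorem avgP (A : Fin n → Finset ℕ) (w : Fin n → ℕ → ℝ) (V : Finset ℕ)
    (h0 : ∀ i, ∀ a ∈ A i, 0 ≤ w i a) (h1 : ∀ i, ∑ a ∈ A i, w i a = 1)
    (P : (Fin n → ℕ) → Prop) [DecidablePred P] {B : ℝ}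
    (h : ∀ H : Finset (Fin n), (∀ i, 0 < mass A w V H i) →
      ∑ x ∈ (Fintype.piFinset (AH A V H)).filter P, ∏ i, w i (x i) / mass A w V H i ≤ B) :
    ∑ x ∈ (Fintype.piFinset A).filter P, ∏ i, w i (x i) ≤ B := by
  have h2 := avgH A w V h0 h1 (fun x => if P x then 1 else 0) (B := B) (fun H hH => by
    have h3 := h H hH
    rw [Finset.sum_filter] at h3
    refine le_trans (le_of_eq (Finset.sum_congr rfl fun x _ => ?_)) h3
    split_ifs <;> simp)
  rw [Finset.sum_filter]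
  refine le_trans (le_of_eq (Finset.sum_congr rfl fun x _ => ?_)) h2
  split_ifs <;> simp

end Pool.Agent.H84.EV
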