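import Pool.Agent.H41.RC.WMain

/-!
# Product distributions, the entries outside `G` have few classes

The proof of `mainW` (`Pool.Agent.H41.RC.WMain`) with the number of the square classes of the entries outside `G` instead of
the number of these entries.
-/

set_option autoImplicit false

namespace Pool.Agent.H84.EV

open Pool.Agent.H92.SR Pool.Agent.H92.SR.Tr Pool.Agent.H8.SS Pool.Agent.H41.RC

variable {n : ℕ}

theorem few_near2 (A : Fin n → Finset ℕ) (G : Finset (Fin n)) (r t : ℕ)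
    (hS : ∀ i ∈ G, (cls (A i)).card ≤ t) {x y : Fin n → ℕ}
    (hr : ((Finset.univ \ G).image fun i => sf (x i)).card ≤ r)
    (hx : ∀ i, x i ∈ A i) : ∃ D : Finset ℕ, 1 ∈ D ∧ (∀ c ∈ D, Squarefree c) ∧
      (∀ i, y i ≠ 0 → sf (y i) ∈ D) ∧
      D.card ≤ t * (Jg A G \ dif x y).card + r + (t + 1) * (dif x y).card + 1 := by
  classical
  refine ⟨insert 1 ((Jg A G).biUnion (fun i => cls (A i)) ∪
    ((Finset.univ \ G).image (fun i => sf (x i)) ∪
      (dif x y).image fun i => sf (y i))), Finset.mem_insert_self _ _, ?_, ?_, ?_⟩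
  · intro d hd
    rw [Finset.mem_insert, Finset.mem_union, Finset.mem_union, Finset.mem_biUnion,
      Finset.mem_image, Finset.mem_image] at hd
    rcases hd with rfl | ⟨i, -, hi⟩ | ⟨i, -, rfl⟩ | ⟨i, -, rfl⟩
    · exact squarefree_one
    · obtain ⟨-, z, -, -, rfl⟩ := mem_cls.1 hi
      exact (sf_spec z).2
    · exact (sf_spec _).2
    · exact (sf_spec _).2
  · intro i h0
    by_cases hi : i ∈ dif x y
    · exact Finset.mem_insert_of_mem (Finset.mem_union_right _ (Finset.mem_union_right _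
        (Finset.mem_image.2 ⟨i, hi, rfl⟩)))
    · have hyx : y i = x i := by
        by_contra h
        exact hi (mem_dif.2 h)
      rw [hyx] at h0 ⊢
      by_cases h1 : sf (x i) = 1
      · rw [h1]
        exact Finset.mem_insert_self _ _
      · refine Finset.mem_insert_of_mem (Finset.mem_union.2 ?_)
        by_cases h : i ∈ G
        · left
          obtain ⟨j, hj, hc⟩ := fewg A G h (mem_cls.2 ⟨h1, x i, hx i, h0, rfl⟩)
          exact Finset.mem_biUnion.2 ⟨j, hj, hc⟩
        · right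
          exact Finset.mem_union_left _ (Finset.mem_image.2
            ⟨i, Finset.mem_sdiff.2 ⟨Finset.mem_univ _, h⟩, rfl⟩)
  · refine (Finset.card_insert_le _ _).trans (Nat.succ_le_succ ?_)
    refine (Finset.card_union_le _ _).trans ?_
    have h1 : ((Jg A G).biUnion fun i => cls (A i)).card ≤ (Jg A G).card * t :=
      Finset.card_biUnion_le_card_mul _ _ t fun i hi => hS i (mem_Jg.1 hi).1
    have h2 : ((Finset.univ \ G).image (fun i => sf (x i)) ∪
        (dif x y).image fun i => sf (y i)).card ≤ r + (dif x y).card :=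
      (Finset.card_union_le _ _).trans
        (add_le_add hr Finset.card_image_le)
    have h3 : (Jg A G).card ≤ (Jg A G \ dif x y).card + (dif x y).card := by
      have := Finset.le_card_sdiff (dif x y) (Jg A G)
      omega
    have h4 := Nat.mul_le_mul_left t h3
    rw [mul_comm] at h1
    have h5 : (t + 1) * (dif x y).card = t * (dif x y).card + (dif x y).card := by ring
    rw [mul_add] at h4
    omega


open Classical in
theorem mainC : ∃ (c : Prog) (T : List ℕ → ℤ → ℕ) (q : Polynomial ℕ) (Λ : ℕ), 1 ≤ Λ ∧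
    (∀ (L : List ℕ) (k : ℤ),
      Eval c (encS L k) (bit (decide ((k : ℝ) ≤ (L.map fun a : ℕ => √(a : ℝ)).sum))) (T L k)) ∧
    ∀ (n : ℕ) (N : Fin n → ℕ) (A : Fin n → Finset ℕ) (w : Fin n → ℕ → ℝ),
      (∀ i, ∀ a ∈ A i, a ≤ N i ∧ 0 ≤ w i a) → (∀ i, ∑ a ∈ A i, w i a = 1) →
      ∀ (θ : ℝ) (g r : ℕ), 0 < θ → θ ^ g ≤ 1 / 2 →
        ∀ G : Finset (Fin n), (∀ i ∈ G, ∀ a ∈ A i, w i a ≤ θ) →
        (∀ x : Fin n → ℕ, (∀ i, x i ∈ A i) →
          ((Finset.univ \ G).image fun i => sf (x i)).card ≤ r) →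
        (1 / 2 ≤ θ → ∀ ρ m : ℕ,
          ∑ x ∈ (Fintype.piFinset A).filter (fun x => ∃ (y : Fin n → ℕ) (k : ℤ),
            (∀ i, y i ≤ N i) ∧ (Finset.univ.filter fun i => y i ≠ x i).card ≤ ρ ∧
            q.eval (n + ∑ i, Nat.size (N i) + Nat.size k.natAbs) *
              Λ ^ (m + r + ρ * (2 * g * Nat.size n + 3)) < T (List.ofFn y) k),
            ∏ i, w i (x i) ≤ θ ^ m) ∧
        ((∀ i, ∀ x ∈ A i, ∀ y ∈ A i, IsSquare (x * y)) →
          (∀ ρ m : ℕ,
            ∑ x ∈ (Fintype.piFinset A).filter (fun x => ∃ (y : Fin n → ℕ) (k : ℤ),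
              (∀ i, y i ≤ N i) ∧ (Finset.univ.filter fun i => y i ≠ x i).card ≤ ρ ∧
              q.eval (n + ∑ i, Nat.size (N i) + Nat.size k.natAbs) *
                Λ ^ (m + r + ρ * (2 * g * Nat.size n + 3)) < T (List.ofFn y) k),
              ∏ i, w i (x i) ≤ θ ^ m) ∧
          ∀ (ρ : ℕ) (y : (Fin n → ℕ) → Fin n → ℕ) (κ : (Fin n → ℕ) → ℤ),
            (∀ x ∈ Fintype.piFinset A, (∀ i, y x i ≤ N i) ∧
              (Finset.univ.filter fun i => y x i ≠ x i).card ≤ ρ) →
            (2 * Λ * θ ≤ 1 → ∀ B : ℕ,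
              (∀ x ∈ Fintype.piFinset A, Nat.size (κ x).natAbs ≤ B) →
              ∑ x ∈ Fintype.piFinset A, (∏ i, w i (x i)) * (T (List.ofFn (y x)) (κ x) : ℝ) ≤
                ((q.eval (n + ∑ i, Nat.size (N i) + B) *
                  Λ ^ (r + ρ * (2 * g * Nat.size n + 3)) : ℕ) : ℝ)) ∧
            ∀ a : ℝ, 0 ≤ a → 2 ^ a * θ ≤ 1 →
              ∑ x ∈ Fintype.piFinset A, (∏ i, w i (x i)) *
                max 0 (-Real.logb 2 |∑ i, √(y x i : ℝ) - κ x|) ^ a ≤
                (n + 2) * (8 * (∑ i, Nat.size (N i) + 2 : ℕ) *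
                  2 ^ (r + ρ * (2 * g * Nat.size n + 3))) ^ a) := by
  obtain ⟨c, T, q, Λ, hΛ, hE, h1, h2⟩ := tmz
  have hΛ0 : 0 < Λ := hΛ
  have hΛr : (1 : ℝ) ≤ Λ := by exact_mod_cast hΛ
  set q' : Polynomial ℕ := q * Polynomial.C (Λ * (1 + 3 * Λ)) with hq'
  have hev : ∀ y : ℕ, q'.eval y = q.eval y * (Λ * (1 + 3 * Λ)) := by
    intro y
    rw [hq', Polynomial.eval_mul, Polynomial.eval_C]
  have hle : ∀ y : ℕ, q.eval y ≤ q'.eval y := by
    intro y
    rw [hev]
    exact Nat.le_mul_of_pos_right _ (Nat.mul_pos hΛ0 (by omega))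
  have hpw : ∀ a x y : ℕ, a * Λ ^ x * Λ ^ y = a * Λ ^ (x + y) := fun a x y => by
    rw [mul_assoc, ← pow_add]
  -- the time of the lists near a good list
  have hgood : ∀ (n : ℕ) (N : Fin n → ℕ) (A : Fin n → Finset ℕ) (G : Finset (Fin n))
      (g r ρ m : ℕ), (∀ i ∈ G, Sharp (A i)) → (∀ x : Fin n → ℕ, (∀ i, x i ∈ A i) →
        ((Finset.univ \ G).image fun i => sf (x i)).card ≤ r) →
      ∀ x y : Fin n → ℕ, (∀ i, x i ∈ A i) → (∀ i, y i ≤ N i) → (dif x y).card ≤ ρ →
      ¬ PE A N G 2 g ρ m x → ∀ k : ℤ, T (List.ofFn y) k ≤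
        q.eval (n + ∑ i, Nat.size (N i) + Nat.size k.natAbs) *
          Λ ^ (m + r + ρ * (2 * g * Nat.size n + 3)) := by
    intro n N A G g r ρ m hS hr x y hx hy hd hne k
    have e1 : m + r + ρ * (2 * g * Nat.size n + 3) =
        m + ρ * (2 * g * Nat.size n + 1) + ρ + (r + ρ) := by ring
    rcases Nat.lt_or_ge (Jg A G \ dif x y).card (m + ρ * (2 * g * Nat.size n + 1)) with hm | hm
    · obtain ⟨D, hD1, hD2, hD3, hD4⟩ := few_near2 (y := y) A G r 2 (fun i hi => (hS i hi).1) (hr x hx) hx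
      exact h2 n N y hy D hD1 hD2 hD3 _ (by rw [e1]; omega) k
    · have hb : ¬ bad (2 * (∑ i, Nat.size (N i) + 2))
          (m + ρ * (2 * g * Nat.size n + 1) + ρ) y := by
        intro hb
        apply hne
        refine ⟨y, hy, hd, hm, ?_⟩
        unfold bad at hb
        have e2 : (∑ i, Nat.size (N i) + 2) *
            2 ^ (2 * (m + ρ * (2 * g * Nat.size n + 1)) + 2 * ρ + 1) =
            2 * (∑ i, Nat.size (N i) + 2) * 4 ^ (m + ρ * (2 * g * Nat.size n + 1) + ρ) := by
          rw [pow_succ, ← mul_add, pow_mul]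
          norm_num
          ring
        rw [e2]
        exact hb
      refine (h1 n N y hy _ hb k).trans (Nat.mul_le_mul_left _ (Nat.pow_le_pow_right hΛ0 ?_))
      rw [e1]
      exact Nat.le_add_right _ _
  -- the tail for sharp sets
  have htail : ∀ (n : ℕ) (N : Fin n → ℕ) (A : Fin n → Finset ℕ) (w : Fin n → ℕ → ℝ)
      (G : Finset (Fin n)) (θ : ℝ) (g r ρ m : ℕ), (∀ i, ∀ a ∈ A i, 0 ≤ w i a) →
      (∀ i, ∑ a ∈ A i, w i a = 1) → 0 ≤ θ → θ ≤ 1 → θ ^ g ≤ 1 / 2 →
      (∀ i ∈ G, ∀ a ∈ A i, w i a ≤ θ) → (∀ i ∈ G, Sharp (A i)) →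
      (∀ x : Fin n → ℕ, (∀ i, x i ∈ A i) →
        ((Finset.univ \ G).image fun i => sf (x i)).card ≤ r) →
      ∑ x ∈ (Fintype.piFinset A).filter (fun x => ∃ (y : Fin n → ℕ) (k : ℤ),
        (∀ i, y i ≤ N i) ∧ (Finset.univ.filter fun i => y i ≠ x i).card ≤ ρ ∧
        q'.eval (n + ∑ i, Nat.size (N i) + Nat.size k.natAbs) *
          Λ ^ (m + r + ρ * (2 * g * Nat.size n + 3)) < T (List.ofFn y) k),
        ∏ i, w i (x i) ≤ θ ^ m := by
    intro n N A w G θ g r ρ m hw0 hw1 hθ0 hθ1 hθg hθ hS hr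
    refine le_trans (Finset.sum_le_sum_of_subset_of_nonneg ?_ ?_)
      (cntE A N G 2 g hS w hw0 hw1 hθ0 hθ1 hθg hθ ρ m)
    · intro x hx
      rw [Finset.mem_filter] at hx ⊢
      refine ⟨hx.1, ?_⟩
      by_contra hb
      obtain ⟨y, k, hy, hd, hk⟩ := hx.2
      have h3 := hgood n N A G g r ρ m hS hr x y (Fintype.mem_piFinset.1 hx.1) hy hd hb k
      have h4 := Nat.mul_le_mul_right (Λ ^ (m + r + ρ * (2 * g * Nat.size n + 3)))
        (hle (n + ∑ i, Nat.size (N i) + Nat.size k.natAbs))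
      omega
    · intro x hx _
      exact Finset.prod_nonneg fun i _ =>
        hw0 i _ (Fintype.mem_piFinset.1 (Finset.mem_filter.1 hx).1 i)
  refine ⟨c, T, q', Λ, hΛ, hE, ?_⟩
  intro n N A w hNw hw1 θ g r hθpos hθg G hθG hGr
  have hθ0 : 0 ≤ θ := hθpos.le
  have hθlt : θ < 1 := by
    by_contra h
    have := one_le_pow₀ (not_lt.1 h) (n := g)
    linarith
  have hw0 : ∀ i, ∀ a ∈ A i, 0 ≤ w i a := fun i a ha => (hNw i a ha).2
  refine ⟨?_, ?_⟩
  · intro hθ2 ρ m
    obtain ⟨A', w', a1, a2, a3, a4, a5, a6⟩ := maxp A w G hw0 hw1 hθ2 hθlt hθG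
      (fun x => ∃ (y : Fin n → ℕ) (k : ℤ),
        (∀ i, y i ≤ N i) ∧ (Finset.univ.filter fun i => y i ≠ x i).card ≤ ρ ∧
        q'.eval (n + ∑ i, Nat.size (N i) + Nat.size k.natAbs) *
          Λ ^ (m + r + ρ * (2 * g * Nat.size n + 3)) < T (List.ofFn y) k) Finset.univ
    refine a6.trans ?_
    exact htail n N A' w' G θ g r ρ m a3 a4 hθ0 hθlt.le hθg a5
      (fun i _ => sharp_pair (a2 i (Finset.mem_univ _)))
      (fun x hx => hGr x fun i => a1 i (hx i))
  · intro hsq
    refine ⟨fun ρ m => htail n N A w G θ g r ρ m hw0 hw1 hθ0 hθlt.le hθg hθG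
      (fun i _ => sharp_sq (hsq i)) hGr, ?_⟩
    intro ρ y κ hy
    have hcls1 : ∀ i, (cls (A i)).card ≤ 1 := by
      intro i
      refine Finset.card_le_one.2 ?_
      intro a ha b hb
      obtain ⟨-, x, hx, hx0, rfl⟩ := mem_cls.1 ha
      obtain ⟨-, y, hy, hy0, rfl⟩ := mem_cls.1 hb
      exact sf_eq hx0 hy0 (hsq i x hx y hy)
    have hJn : ∀ (R : Finset (Fin n)), (Jg A G \ R).card ≤ n := fun R =>
      (Finset.card_le_univ _).trans (le_of_eq (Fintype.card_fin n))
    have hW : ∀ x ∈ Fintype.piFinset A, 0 ≤ ∏ i, w i (x i) := fun x hx =>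
      Finset.prod_nonneg fun i _ => hw0 i _ (Fintype.mem_piFinset.1 hx i)
    have hW1 : ∑ x ∈ Fintype.piFinset A, ∏ i, w i (x i) = 1 := by
      rw [← Finset.prod_univ_sum]
      exact Finset.prod_eq_one fun i _ => hw1 i
    refine ⟨?_, ?_⟩
    · intro hΛθ B hκ
      have hS : ∀ i ∈ G, Sharp (A i) := fun i _ => sharp_sq (hsq i)
      have hQ : ∀ x ∈ Fintype.piFinset A,
          q.eval (n + ∑ i, Nat.size (N i) + Nat.size (κ x).natAbs) ≤
          q.eval (n + ∑ i, Nat.size (N i) + B) := fun x hx =>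
        poly_mono q (Nat.add_le_add_left (hκ x hx) _)
      have h3 := avgW (Fintype.piFinset A) (fun x => ∏ i, w i (x i))
        (fun x => (T (List.ofFn (y x)) (κ x) : ℝ))
        (fun m x => PE A N G 2 g ρ m x)
        (Q := ((q.eval (n + ∑ i, Nat.size (N i) + B) *
          Λ ^ (r + ρ * (2 * g * Nat.size n + 3) + 1) : ℕ) : ℝ))
        (L := (Λ : ℝ)) (M := n) (p := fun m => θ ^ m) (Nat.cast_nonneg _) hΛr hW hW1 ?_ ?_ ?_
      · refine h3.trans ((mul_le_mul_of_nonneg_left (geo hΛr hθ0 hΛθ n)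
          (Nat.cast_nonneg _)).trans (le_of_eq ?_))
        rw [hev]
        push_cast
        ring
      · intro x hx m _ hb
        obtain ⟨hy1, hy2⟩ := hy x hx
        have h4 := hgood n N A G g r ρ m hS hGr x (y x) (Fintype.mem_piFinset.1 hx) hy1 hy2 hb
          (κ x)
        have h5 : T (List.ofFn (y x)) (κ x) ≤ q.eval (n + ∑ i, Nat.size (N i) + B) *
            Λ ^ (r + ρ * (2 * g * Nat.size n + 3) + 1) * Λ ^ m := by
          refine h4.trans ?_
          rw [hpw]
          exact Nat.mul_le_mul (hQ x hx) (Nat.pow_le_pow_right hΛ0 (by omega))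
        exact_mod_cast h5
      · intro x hx
        obtain ⟨hy1, hy2⟩ := hy x hx
        obtain ⟨D, hD1, hD2, hD3, hD4⟩ :=
          few_near2 (y := y x) A G r 2 (fun i hi => (hS i hi).1)
            (hGr x (Fintype.mem_piFinset.1 hx)) (Fintype.mem_piFinset.1 hx)
        have h5 := hJn (dif x (y x))
        have h6 : (dif x (y x)).card ≤ ρ := hy2
        have h7 : ρ * (2 * g * Nat.size n + 3) = ρ * (2 * g * Nat.size n) + 3 * ρ := by ring
        have h8 : T (List.ofFn (y x)) (κ x) ≤ q.eval (n + ∑ i, Nat.size (N i) + B) *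
            Λ ^ (r + ρ * (2 * g * Nat.size n + 3) + 1) * Λ ^ n := by
          refine (h2 n N (y x) hy1 D hD1 hD2 hD3 (n + r + 3 * ρ + 1) (by omega) (κ x)).trans ?_
          rw [hpw]
          exact Nat.mul_le_mul (hQ x hx) (Nat.pow_le_pow_right hΛ0 (by omega))
        exact_mod_cast h8
      · intro m _
        exact cntE A N G 2 g hS w hw0 hw1 hθ0 hθlt.le hθg hθG ρ m
    · intro a ha h2θ
      have hS : ∀ i ∈ G, (cls (A i)).card ≤ 1 ∧
          ∀ x ∈ A i, ∀ y ∈ A i, x ≠ y → ∀ c ∈ cls (A i), co c x ≠ co c y :=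
        fun i _ => ⟨hcls1 i, (sharp_sq (hsq i)).2⟩
      set s : ℕ := ∑ i, Nat.size (N i) + 2 with hs
      set v : ℕ := ρ * (2 * g * Nat.size n + 3) with hv
      have hs2 : 2 ≤ s := by omega
      have hs2' : (2 : ℝ) ≤ s := by exact_mod_cast hs2
      have hneg : ∀ x : Fin n → ℕ, κ x < 0 →
          -Real.logb 2 |∑ i, √(y x i : ℝ) - κ x| ≤ 0 := by
        intro x hx
        apply neg_logb_nonpos
        have h1 : (κ x : ℝ) ≤ -1 := by exact_mod_cast (by omega : κ x ≤ -1)
        have h2 : 0 ≤ ∑ i, √(y x i : ℝ) := Finset.sum_nonneg fun i _ => Real.sqrt_nonneg _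
        rw [abs_of_nonneg (by linarith)]
        linarith
      have hpos : ∀ x : Fin n → ℕ, 0 ≤ κ x → (κ x : ℝ) = ((κ x).toNat : ℝ) := by
        intro x hx
        have h1 : ((κ x).toNat : ℤ) = κ x := Int.toNat_of_nonneg hx
        rw [← Int.cast_natCast, h1]
      -- few classes
      have hfew : ∀ x ∈ Fintype.piFinset A, ∀ e : ℕ,
          (Jg A G \ dif x (y x)).card + r + 2 * ρ + 1 ≤ e →
          max 0 (-Real.logb 2 |∑ i, √(y x i : ℝ) - κ x|) ≤ (s : ℝ) * 2 ^ e := by
        intro x hx e he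
        obtain ⟨hy1, hy2⟩ := hy x hx
        rw [Fintype.mem_piFinset] at hx
        have hnn : (0 : ℝ) ≤ (s : ℝ) * 2 ^ e := by positivity
        refine max_le hnn ?_
        rcases lt_or_ge (κ x) 0 with hk | hk
        · exact (hneg x hk).trans hnn
        · rw [hpos x hk]
          obtain ⟨D, hD1, hD2, hD3, hD4⟩ :=
            few_near2 (y := y x) A G r 1 (fun i hi => (hS i hi).1) (hGr x hx) hx
          have h6 : (dif x (y x)).card ≤ ρ := hy2
          refine (few_log (N := N) hy1 hD1 hD2 hD3 _).trans ?_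
          rw [← hs]
          push_cast
          refine mul_le_mul_of_nonneg_left (pow_le_pow_right₀ (by norm_num) ?_) (by linarith)
          omega
      have h2a : (1 : ℝ) ≤ 2 ^ a := Real.one_le_rpow one_le_two ha
      have hmono : ∀ (f : ℝ) (m : ℕ), 0 ≤ f → f ≤ 4 * s * 2 ^ (r + v) * 2 ^ m →
          f ^ a ≤ (4 * s * 2 ^ (r + v)) ^ a * ((2 : ℝ) ^ a) ^ m := by
        intro f m hf h
        have e1 : ((2 : ℝ) ^ a) ^ m = ((2 : ℝ) ^ m) ^ a := Real.rpow_pow_comm (by norm_num) a m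
        rw [e1, ← Real.mul_rpow (by positivity) (by positivity)]
        exact Real.rpow_le_rpow hf h ha
      have h := avgW (Fintype.piFinset A) (fun x => ∏ i, w i (x i))
        (fun x => max 0 (-Real.logb 2 |∑ i, √(y x i : ℝ) - κ x|) ^ a)
        (fun m x => PE A N G 1 g ρ m x) (Q := (4 * s * 2 ^ (r + v)) ^ a) (L := 2 ^ a)
        (M := n) (p := fun m => θ ^ m) (by positivity) h2a hW hW1 ?_ ?_ ?_
      · refine h.trans ((mul_le_mul_of_nonneg_left (geo3 h2a hθ0 h2θ n) (by positivity)).trans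
          (le_of_eq ?_))
        have e1 : (8 * (s : ℝ) * 2 ^ (r + v)) ^ a =
            (4 * (s : ℝ) * 2 ^ (r + v)) ^ a * (2 : ℝ) ^ a := by
          rw [← Real.mul_rpow (by positivity) (by positivity)]
          congr 1
          ring
        rw [e1]
        ring
      · intro x hx m _ hb
        refine hmono _ m (le_max_left _ _) ?_
        have hRnn : (0 : ℝ) ≤ 4 * s * 2 ^ (r + v) * 2 ^ m := by positivity
        rcases Nat.lt_or_ge (Jg A G \ dif x (y x)).card (m + ρ * (2 * g * Nat.size n + 1))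
          with hm | hm
        · refine (hfew x hx (m + r + v) ?_).trans ?_
          · have e1 : v = ρ * (2 * g * Nat.size n + 1) + 2 * ρ := by
              rw [hv]
              ring
            omega
          · have e2 : (2 : ℝ) ^ (m + r + v) = 2 ^ (r + v) * 2 ^ m := by
              rw [← pow_add]
              congr 1
              ring
            rw [e2]
            have e3 : (0 : ℝ) ≤ s * (2 ^ (r + v) * 2 ^ m) := by positivity
            linarith
        · refine max_le hRnn ?_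
          rcases lt_or_ge (κ x) 0 with hk | hk
          · exact (hneg x hk).trans hRnn
          · obtain ⟨hy1, hy2⟩ := hy x hx
            rw [hpos x hk]
            have hb2 : ¬ badp (s * 2 ^ (1 * (m + ρ * (2 * g * Nat.size n + 1)) + 2 * ρ + 1))
                (y x) := fun hb3 => hb ⟨y x, hy1, hy2, hm, hb3⟩
            unfold badp at hb2
            push Not at hb2
            have h1 := hb2 (κ x).toNat
            rw [EE_ofFn] at h1
            refine (neg_logb_le h1).trans ?_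
            have e1 : 1 * (m + ρ * (2 * g * Nat.size n + 1)) + 2 * ρ + 1 = m + v + 1 := by
              rw [hv]
              ring
            rw [e1]
            push_cast
            have h2 : (1 : ℝ) ≤ 2 ^ (m + v) := one_le_pow₀ (by norm_num)
            have h3 : (1 : ℝ) ≤ s * 2 ^ (m + v) := by nlinarith
            have h4 : (1 : ℝ) + s * 2 ^ (m + v + 1) ≤ 4 * s * 2 ^ (m + v) := by
              rw [pow_succ]
              linarith
            have h5 : (2 : ℝ) ^ (m + v) ≤ 2 ^ (r + v) * 2 ^ m := by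
              rw [← pow_add]
              exact pow_le_pow_right₀ (by norm_num) (by omega)
            have h6 := mul_le_mul_of_nonneg_left h5 (show (0 : ℝ) ≤ 4 * s by linarith)
            linarith
      · intro x hx
        refine hmono _ n (le_max_left _ _) ?_
        refine (hfew x hx (n + r + 2 * ρ + 1) (by have := hJn (dif x (y x)); omega)).trans ?_
        have e2 : (2 : ℝ) ^ (n + r + 2 * ρ + 1) ≤ 2 * (2 ^ (r + v) * 2 ^ n) := by
          rw [← pow_add, ← pow_succ']
          refine pow_le_pow_right₀ (by norm_num) ?_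
          have e1 : v = ρ * (2 * g * Nat.size n + 1) + 2 * ρ := by
            rw [hv]
            ring
          omega
        have e3 := mul_le_mul_of_nonneg_left e2 (show (0 : ℝ) ≤ s by linarith)
        have e4 : (0 : ℝ) ≤ s * (2 ^ (r + v) * 2 ^ n) := by positivity
        linarith
      · intro m _
        exact cntE A N G 1 g hS w hw0 hw1 hθ0 hθlt.le hθg hθG ρ m


end Pool.Agent.H84.EV
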