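import Pool.Agent.H84.EV.Main

/-!
# Identically distributed entries
-/

set_option autoImplicit false

namespace Pool.Agent.H84.EV

open Pool.Agent.H92.SR Pool.Agent.H92.SR.Tr Pool.Agent.H8.SS Pool.Agent.H41.RC

/-- the heaviest values -/
theorem heavy (S : Finset ℕ) (v : ℕ → ℝ) (h1 : ∑ a ∈ S, v a = 1)
    (J : ℕ) : ∃ V : Finset ℕ, V.card ≤ J ∧
      ((∀ a ∈ S \ V, v a ≤ 1 / 2 * ∑ b ∈ S \ V, v b) ∨ ∑ b ∈ S \ V, v b ≤ (1 / 2) ^ J) := by
  classical
  induction J with
  | zero =>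
    refine ⟨∅, le_rfl, Or.inr ?_⟩
    rw [Finset.sdiff_empty, h1, pow_zero]
  | succ J ih =>
    obtain ⟨V, hc, hV⟩ := ih
    by_cases hA : ∀ a ∈ S \ V, v a ≤ 1 / 2 * ∑ b ∈ S \ V, v b
    · exact ⟨V, hc.trans (Nat.le_succ _), Or.inl hA⟩
    · have hB := hV.resolve_left hA
      push Not at hA
      obtain ⟨a, ha, hlt⟩ := hA
      refine ⟨insert a V, (Finset.card_insert_le _ _).trans (Nat.succ_le_succ hc), Or.inr ?_⟩
      have e : S \ insert a V = (S \ V).erase a := by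
        ext b
        rw [Finset.mem_sdiff, Finset.mem_insert, Finset.mem_erase, Finset.mem_sdiff]
        tauto
      have e2 := Finset.sum_erase_add (S \ V) v ha
      rw [e, pow_succ]
      linarith

open Classical in
theorem mainI : ∃ (c : Prog) (T : List ℕ → ℤ → ℕ) (q : Polynomial ℕ) (Λ : ℕ), 1 ≤ Λ ∧
    (∀ (L : List ℕ) (k : ℤ),
      Eval c (encS L k) (bit (decide ((k : ℝ) ≤ (L.map fun a : ℕ => √(a : ℝ)).sum))) (T L k)) ∧
    ∀ (n : ℕ) (N : Fin n → ℕ) (A : Fin n → Finset ℕ) (w : Fin n → ℕ → ℝ),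
      (∀ i, ∀ a ∈ A i, a ≤ N i ∧ 0 ≤ w i a) → (∀ i, ∑ a ∈ A i, w i a = 1) →
      (∀ (θ : ℝ) (g r : ℕ) (V : Finset ℕ), 0 < θ → θ ^ g ≤ 1 / 2 →
        V.card + (Finset.univ.filter fun i => ∃ a ∈ A i \ V,
          θ * ∑ b ∈ A i \ V, w i b < w i a).card ≤ r →
        (1 / 2 ≤ θ → ∀ ρ m : ℕ,
          ∑ x ∈ (Fintype.piFinset A).filter (fun x => ∃ (y : Fin n → ℕ) (k : ℤ),
            (∀ i, y i ≤ N i) ∧ (Finset.univ.filter fun i => y i ≠ x i).card ≤ ρ ∧
            q.eval (n + ∑ i, Nat.size (N i) + Nat.size k.natAbs) *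
              Λ ^ (m + r + ρ * (2 * g * Nat.size n + 3)) < T (List.ofFn y) k),
            ∏ i, w i (x i) ≤ θ ^ m) ∧
        ((∀ i, ∀ x ∈ A i, ∀ y ∈ A i, IsSquare (x * y)) →
          (∀ ρ m : ℕ,
            ∑ x ∈ (Fintype.piFinset A).filter (fun x => ∃ (y : Fin n → ℕ) (k : ℤ),
              (∀ i, y i ≤ N i) ∧ (Finset.univ.filter fun i => y i ≠ x i).card ≤ ρ ∧
              q.eval (n + ∑ i, Nat.size (N i) + Nat.size k.natAbs) *
                Λ ^ (m + r + ρ * (2 * g * Nat.size n + 3)) < T (List.ofFn y) k),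
              ∏ i, w i (x i) ≤ θ ^ m) ∧
          ∀ (ρ : ℕ) (y : (Fin n → ℕ) → Fin n → ℕ) (κ : (Fin n → ℕ) → ℤ),
            (∀ x ∈ Fintype.piFinset A, (∀ i, y x i ≤ N i) ∧
              (Finset.univ.filter fun i => y x i ≠ x i).card ≤ ρ) →
            (2 * Λ * θ ≤ 1 → ∀ B : ℕ,
              (∀ x ∈ Fintype.piFinset A, Nat.size (κ x).natAbs ≤ B) →
              ∑ x ∈ Fintype.piFinset A, (∏ i, w i (x i)) * (T (List.ofFn (y x)) (κ x) : ℝ) ≤
                ((q.eval (n + ∑ i, Nat.size (N i) + B) *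
                  Λ ^ (r + ρ * (2 * g * Nat.size n + 3)) : ℕ) : ℝ)) ∧
            ∀ a : ℝ, 0 ≤ a → 2 ^ a * θ ≤ 1 →
              ∑ x ∈ Fintype.piFinset A, (∏ i, w i (x i)) *
                max 0 (-Real.logb 2 |∑ i, √(y x i : ℝ) - κ x|) ^ a ≤
                (n + 2) * (8 * (∑ i, Nat.size (N i) + 2 : ℕ) *
                  2 ^ (r + ρ * (2 * g * Nat.size n + 3))) ^ a)) ∧
      ((∀ i j, A i = A j ∧ w i = w j) → ∀ ρ m : ℕ,
        ∑ x ∈ (Fintype.piFinset A).filter (fun x => ∃ (y : Fin n → ℕ) (k : ℤ),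
          (∀ i, y i ≤ N i) ∧ (Finset.univ.filter fun i => y i ≠ x i).card ≤ ρ ∧
          q.eval (n + ∑ i, Nat.size (N i) + Nat.size k.natAbs) *
            Λ ^ (2 * m + Nat.size n + ρ * (2 * Nat.size n + 3)) < T (List.ofFn y) k),
          ∏ i, w i (x i) ≤ 2 * (1 / 2) ^ m) := by
  obtain ⟨c, T, q, Λ, hΛ, hE, h⟩ := mainV
  refine ⟨c, T, q, Λ, hΛ, hE, fun n N A w hNw hw1 => ⟨h n N A w hNw hw1, ?_⟩⟩
  intro hid ρ m
  have hΛ0 : 0 < Λ := hΛ
  have h0 : ∀ i, ∀ a ∈ A i, 0 ≤ w i a := fun i a ha => (hNw i a ha).2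
  have hhalf : (0 : ℝ) < 1 / 2 := by norm_num
  have hpow : (0 : ℝ) < (1 / 2) ^ m := by positivity
  -- smaller exponents
  have hmon : ∀ (A' : Fin n → Finset ℕ) (w' : Fin n → ℕ → ℝ), (∀ i, ∀ a ∈ A' i, 0 ≤ w' i a) →
      ∀ e : ℕ, e ≤ 2 * m + Nat.size n + ρ * (2 * Nat.size n + 3) →
      ∑ x ∈ (Fintype.piFinset A').filter (fun x => ∃ (y : Fin n → ℕ) (k : ℤ),
          (∀ i, y i ≤ N i) ∧ (Finset.univ.filter fun i => y i ≠ x i).card ≤ ρ ∧
          q.eval (n + ∑ i, Nat.size (N i) + Nat.size k.natAbs) *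
            Λ ^ (2 * m + Nat.size n + ρ * (2 * Nat.size n + 3)) < T (List.ofFn y) k),
          ∏ i, w' i (x i) ≤
      ∑ x ∈ (Fintype.piFinset A').filter (fun x => ∃ (y : Fin n → ℕ) (k : ℤ),
          (∀ i, y i ≤ N i) ∧ (Finset.univ.filter fun i => y i ≠ x i).card ≤ ρ ∧
          q.eval (n + ∑ i, Nat.size (N i) + Nat.size k.natAbs) * Λ ^ e < T (List.ofFn y) k),
          ∏ i, w' i (x i) := by
    intro A' w' hw' e he
    refine Finset.sum_le_sum_of_subset_of_nonneg ?_ ?_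
    · intro x hx
      rw [Finset.mem_filter] at hx ⊢
      obtain ⟨hx1, y, k, h1, h2, h3⟩ := hx
      exact ⟨hx1, y, k, h1, h2, lt_of_le_of_lt
        (Nat.mul_le_mul_left _ (Nat.pow_le_pow_right hΛ0 he)) h3⟩
    · intro x hx _
      exact Finset.prod_nonneg fun i _ =>
        hw' i _ (Fintype.mem_piFinset.1 (Finset.mem_filter.1 hx).1 i)
  -- few values or small conditional atoms
  have hsmall : ∀ (A' : Fin n → Finset ℕ) (w' : Fin n → ℕ → ℝ),
      (∀ i, ∀ a ∈ A' i, a ≤ N i ∧ 0 ≤ w' i a) → (∀ i, ∑ a ∈ A' i, w' i a = 1) →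
      ∀ V : Finset ℕ, V.card ≤ m + Nat.size n →
      (∀ i, ∀ a ∈ A' i \ V, w' i a ≤ 1 / 2 * ∑ b ∈ A' i \ V, w' i b) →
      ∑ x ∈ (Fintype.piFinset A').filter (fun x => ∃ (y : Fin n → ℕ) (k : ℤ),
          (∀ i, y i ≤ N i) ∧ (Finset.univ.filter fun i => y i ≠ x i).card ≤ ρ ∧
          q.eval (n + ∑ i, Nat.size (N i) + Nat.size k.natAbs) *
            Λ ^ (2 * m + Nat.size n + ρ * (2 * Nat.size n + 3)) < T (List.ofFn y) k),
          ∏ i, w' i (x i) ≤ (1 / 2) ^ m := by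
    intro A' w' hN' hw1' V hV hat
    have hE0 : (Finset.univ.filter fun i => ∃ a ∈ A' i \ V,
        1 / 2 * ∑ b ∈ A' i \ V, w' i b < w' i a) = ∅ := by
      rw [Finset.filter_eq_empty_iff]
      rintro i - ⟨a, ha, hlt⟩
      exact absurd (hat i a ha) (not_le.2 hlt)
    have h3 := (h n N A' w' hN' hw1' (1 / 2) 1 (m + Nat.size n) V hhalf (by norm_num)
      (by rw [hE0]; simpa using hV)).1 le_rfl ρ m
    refine le_trans (hmon A' w' (fun i a ha => (hN' i a ha).2) _ ?_) h3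
    rw [mul_one]
    omega
  rcases Nat.eq_zero_or_pos n with hn | hn
  · subst hn
    refine (hsmall A w hNw hw1 ∅ (by simp) fun i => i.elim0).trans ?_
    linarith
  set i0 : Fin n := ⟨0, hn⟩ with hi0
  have hA : ∀ i, A i = A i0 := fun i => (hid i i0).1
  have hw : ∀ i, w i = w i0 := fun i => (hid i i0).2
  obtain ⟨V, hVc, hV⟩ := heavy (A i0) (w i0) (hw1 i0) (m + Nat.size n)
  rcases hV with hV | hV
  · refine (hsmall A w hNw hw1 V hVc ?_).trans (by linarith)
    intro i a ha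
    rw [hA i] at ha ⊢
    rw [hw i]
    exact hV a ha
  · -- all the values are in `V` with high probability
    set P : (Fin n → ℕ) → Prop := fun x => ∃ (y : Fin n → ℕ) (k : ℤ),
          (∀ i, y i ≤ N i) ∧ (Finset.univ.filter fun i => y i ≠ x i).card ≤ ρ ∧
          q.eval (n + ∑ i, Nat.size (N i) + Nat.size k.natAbs) *
            Λ ^ (2 * m + Nat.size n + ρ * (2 * Nat.size n + 3)) < T (List.ofFn y) k with hP
    have e1 : ∑ x ∈ (Fintype.piFinset A).filter P, ∏ i, w i (x i) =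
        ∑ x ∈ Fintype.piFinset A, (∏ i, w i (x i)) * (if P x then 1 else 0) := by
      rw [Finset.sum_filter]
      refine Finset.sum_congr rfl fun x _ => ?_
      split_ifs <;> simp
    have hm : ∀ (H : Finset (Fin n)) (i : Fin n), 0 ≤ mass A w V H i := fun H i =>
      Finset.sum_nonneg fun a ha => h0 i a (AH_sub A V H i ha)
    have hMn : ∀ H : Finset (Fin n), 0 ≤ ∏ i, mass A w V H i := fun H =>
      Finset.prod_nonneg fun i _ => hm H i
    have hall : ∀ H : Finset (Fin n), ∑ x ∈ Fintype.piFinset (AH A V H),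
        (∏ i, w i (x i)) * (if P x then 1 else 0) ≤ ∏ i, mass A w V H i := by
      intro H
      unfold mass
      rw [Finset.prod_univ_sum]
      refine Finset.sum_le_sum fun x hx => ?_
      have hx0 : 0 ≤ ∏ i, w i (x i) := Finset.prod_nonneg fun i _ =>
        h0 i _ (AH_sub A V H i (Fintype.mem_piFinset.1 hx i))
      split_ifs
      · rw [mul_one]
      · rw [mul_zero]
        exact hx0
    have huniv : ∑ x ∈ Fintype.piFinset (AH A V Finset.univ),
        (∏ i, w i (x i)) * (if P x then 1 else 0) ≤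
        (∏ i, mass A w V Finset.univ i) * (1 / 2) ^ m := by
      refine inner A w V h0 Finset.univ _ fun hH => ?_
      have h3 := hsmall (AH A V Finset.univ) (fun i a => w i a / mass A w V Finset.univ i)
        (fun i a ha => ⟨(hNw i a (AH_sub A V _ i ha)).1,
          div_nonneg (h0 i a (AH_sub A V _ i ha)) (hH i).le⟩)
        (fun i => by
          rw [← Finset.sum_div]
          exact div_self (hH i).ne') V hVc (by
          intro i a ha
          exfalso
          rw [Finset.mem_sdiff] at ha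
          have h5 := ha.1
          unfold AH at h5
          rw [if_pos (Finset.mem_univ i)] at h5
          exact ha.2 (Finset.mem_inter.1 h5).2)
      rw [Finset.sum_filter] at h3
      refine le_trans (le_of_eq (Finset.sum_congr rfl fun x _ => ?_)) h3
      split_ifs <;> simp
    have hms : ∀ i, mass A w V Finset.univ i = 1 - ∑ b ∈ A i0 \ V, w i0 b := by
      intro i
      have e2 : mass A w V Finset.univ i = ∑ a ∈ A i0 ∩ V, w i0 a := by
        unfold mass AH
        rw [if_pos (Finset.mem_univ i), hA i, hw i]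
      have e3 := Finset.sum_inter_add_sum_sdiff (A i0) V (w i0)
      rw [hw1 i0] at e3
      rw [e2]
      linarith
    have hMu : 1 - (1 / 2 : ℝ) ^ m ≤ ∏ i, mass A w V Finset.univ i := by
      rw [Finset.prod_congr rfl fun i _ => hms i, Finset.prod_const, Finset.card_univ,
        Fintype.card_fin]
      set z : ℝ := ∑ b ∈ A i0 \ V, w i0 b with hz
      have hz0 : 0 ≤ z := Finset.sum_nonneg fun b hb => h0 i0 b (Finset.mem_sdiff.1 hb).1
      have hz1 : z ≤ 1 := by
        refine hV.trans (pow_le_one₀ (by norm_num) (by norm_num))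
      have hb := one_add_mul_le_pow (a := -z) (by linarith) n
      have e4 : (1 : ℝ) + -z = 1 - z := by ring
      rw [e4] at hb
      refine le_trans ?_ hb
      have hn2 : (n : ℝ) ≤ 2 ^ Nat.size n := by
        exact_mod_cast (Nat.lt_size_self n).le
      have h6 : (n : ℝ) * z ≤ (1 / 2) ^ m := by
        calc (n : ℝ) * z ≤ 2 ^ Nat.size n * (1 / 2) ^ (m + Nat.size n) :=
              mul_le_mul hn2 hV hz0 (by positivity)
          _ = (1 / 2) ^ m := by
              rw [pow_add, mul_comm ((1 / 2 : ℝ) ^ m), ← mul_assoc, ← mul_pow]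
              norm_num
      linarith
    have hsum := mass_sum A w V hw1
    rw [e1, split_H A V]
    rw [← Finset.add_sum_erase _ _ (Finset.mem_univ (Finset.univ : Finset (Fin n)))] at hsum ⊢
    have h7 : ∑ H ∈ Finset.univ.erase (Finset.univ : Finset (Fin n)),
        ∑ x ∈ Fintype.piFinset (AH A V H), (∏ i, w i (x i)) * (if P x then 1 else 0) ≤
        ∑ H ∈ Finset.univ.erase (Finset.univ : Finset (Fin n)), ∏ i, mass A w V H i :=
      Finset.sum_le_sum fun H _ => hall H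
    have h8 : (∏ i, mass A w V Finset.univ i) * (1 / 2) ^ m ≤ (1 / 2) ^ m := by
      refine mul_le_of_le_one_left hpow.le ?_
      have h9 : 0 ≤ ∑ H ∈ Finset.univ.erase (Finset.univ : Finset (Fin n)),
        ∏ i, mass A w V H i := Finset.sum_nonneg fun H _ => hMn H
      linarith
    linarith

end Pool.Agent.H84.EV
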