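import Pool.Agent.H84.EV.Main

/-!
# Few different laws
-/

set_option autoImplicit false

namespace Pool.Agent.H84.EV

open Pool.Agent.H92.SR Pool.Agent.H92.SR.Tr Pool.Agent.H8.SS Pool.Agent.H41.RC

/-- the heaviest values of a family of laws -/
theorem heavyL (𝓛 : Finset (Finset ℕ × (ℕ → ℝ))) (h0 : ∀ p ∈ 𝓛, ∀ a ∈ p.1, 0 ≤ p.2 a)
    (h1 : ∀ p ∈ 𝓛, ∑ a ∈ p.1, p.2 a = 1) (J : ℕ) : ∃ V : Finset ℕ, V.card ≤ 𝓛.card * J ∧
      ∀ p ∈ 𝓛, (∀ a ∈ p.1 \ V, p.2 a ≤ 1 / 2 * ∑ b ∈ p.1 \ V, p.2 b) ∨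
        ∑ b ∈ p.1 \ V, p.2 b ≤ (1 / 2) ^ J := by
  classical
  set f : Finset ℕ × (ℕ → ℝ) → Finset ℕ → ℕ := fun p V =>
    Nat.findGreatest (fun j => ∑ b ∈ p.1 \ V, p.2 b ≤ (1 / 2) ^ j) J with hf
  set F : Finset ℕ → ℕ := fun V => ∑ p ∈ 𝓛, f p V with hF
  have hfJ : ∀ p V, f p V ≤ J := fun p V => Nat.findGreatest_le J
  have hFJ : ∀ V, F V ≤ 𝓛.card * J := fun V => by
    rw [hF, ← smul_eq_mul]
    exact Finset.sum_le_card_nsmul _ _ _ fun p _ => hfJ p V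
  have hle1 : ∀ p ∈ 𝓛, ∀ V : Finset ℕ, ∑ b ∈ p.1 \ V, p.2 b ≤ 1 := fun p hp V => by
    rw [← h1 p hp]
    exact Finset.sum_le_sum_of_subset_of_nonneg Finset.sdiff_subset fun a ha _ => h0 p hp a ha
  have hspec : ∀ p ∈ 𝓛, ∀ V, ∑ b ∈ p.1 \ V, p.2 b ≤ (1 / 2) ^ f p V := fun p hp V =>
    Nat.findGreatest_spec (P := fun j => ∑ b ∈ p.1 \ V, p.2 b ≤ (1 / 2) ^ j) (Nat.zero_le J)
      (by rw [pow_zero]; exact hle1 p hp V)
  set Z : Set ℕ := {s | ∃ V : Finset ℕ, V.card ≤ F V ∧ F V = s} with hZ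
  have hne : Z.Nonempty := ⟨F ∅, ∅, Nat.zero_le _, rfl⟩
  have hbd : BddAbove Z := ⟨𝓛.card * J, by
    rintro s ⟨V, -, rfl⟩
    exact hFJ V⟩
  obtain ⟨V, hV, hVs⟩ := Nat.sSup_mem hne hbd
  refine ⟨V, hV.trans (hFJ V), fun p hp => ?_⟩
  by_contra hno
  push Not at hno
  obtain ⟨⟨a, ha, hlt⟩, hJ⟩ := hno
  have hfp : f p V < J := by
    rcases Nat.lt_or_ge (f p V) J with h | h
    · exact h
    · have h2 : f p V = J := le_antisymm (hfJ p V) h
      have h3 := hspec p hp V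
      rw [h2] at h3
      exact absurd h3 (not_le.2 hJ)
  have hmono : ∀ p' ∈ 𝓛, ∑ b ∈ p'.1 \ insert a V, p'.2 b ≤ ∑ b ∈ p'.1 \ V, p'.2 b :=
    fun p' hp' => Finset.sum_le_sum_of_subset_of_nonneg
      (Finset.sdiff_subset_sdiff le_rfl (Finset.subset_insert a V))
      fun b hb _ => h0 p' hp' b (Finset.mem_sdiff.1 hb).1
  have hge : ∀ p' ∈ 𝓛, f p' V ≤ f p' (insert a V) := fun p' hp' =>
    Nat.le_findGreatest (hfJ p' V) ((hmono p' hp').trans (hspec p' hp' V))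
  have hgt : f p V + 1 ≤ f p (insert a V) := by
    refine Nat.le_findGreatest hfp ?_
    have e : p.1 \ insert a V = (p.1 \ V).erase a := by
      ext b
      rw [Finset.mem_sdiff, Finset.mem_insert, Finset.mem_erase, Finset.mem_sdiff]
      tauto
    have e2 := Finset.sum_erase_add (p.1 \ V) p.2 ha
    have e3 := hspec p hp V
    rw [e, pow_succ]
    linarith
  have hFlt : F V + 1 ≤ F (insert a V) := by
    have h2 : ∑ p' ∈ 𝓛.erase p, f p' V ≤ ∑ p' ∈ 𝓛.erase p, f p' (insert a V) :=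
      Finset.sum_le_sum fun p' hp' => hge p' (Finset.mem_of_mem_erase hp')
    have h3 := Finset.sum_erase_add 𝓛 (fun p' => f p' V) hp
    have h4 := Finset.sum_erase_add 𝓛 (fun p' => f p' (insert a V)) hp
    simp only [hF]
    omega
  have hin : F (insert a V) ∈ Z :=
    ⟨insert a V, (Finset.card_insert_le _ _).trans (by omega), rfl⟩
  have hmax := le_csSup hbd hin
  rw [← hVs] at hmax
  omega

theorem inner2 {n : ℕ} (A : Fin n → Finset ℕ) (w : Fin n → ℕ → ℝ)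
    (h0 : ∀ i, ∀ a ∈ A i, 0 ≤ w i a) (F : (Fin n → ℕ) → ℝ) {B : ℝ}
    (h : (∀ i, 0 < ∑ a ∈ A i, w i a) → ∑ x ∈ Fintype.piFinset A,
      (∏ i, w i (x i) / ∑ a ∈ A i, w i a) * F x ≤ B) :
    ∑ x ∈ Fintype.piFinset A, (∏ i, w i (x i)) * F x ≤ (∏ i, ∑ a ∈ A i, w i a) * B := by
  have hm : ∀ i, 0 ≤ ∑ a ∈ A i, w i a := fun i => Finset.sum_nonneg fun a ha => h0 i a ha
  by_cases hp : ∀ i, 0 < ∑ a ∈ A i, w i a
  · have hM : 0 < ∏ i, ∑ a ∈ A i, w i a := Finset.prod_pos fun i _ => hp i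
    have h3 := mul_le_mul_of_nonneg_left (h hp) hM.le
    refine le_trans (le_of_eq ?_) h3
    rw [Finset.mul_sum]
    refine Finset.sum_congr rfl fun x _ => ?_
    rw [← mul_assoc]
    congr 1
    rw [← Finset.prod_mul_distrib]
    refine Finset.prod_congr rfl fun i _ => ?_
    rw [mul_div_cancel₀ _ (hp i).ne']
  · push Not at hp
    obtain ⟨i, hi⟩ := hp
    have hi0 : ∑ a ∈ A i, w i a = 0 := le_antisymm hi (hm i)
    have hz : ∀ a ∈ A i, w i a = 0 := (Finset.sum_eq_zero_iff_of_nonneg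
      fun a ha => h0 i a ha).1 hi0
    have e1 : ∏ i, ∑ a ∈ A i, w i a = 0 := Finset.prod_eq_zero (Finset.mem_univ i) hi0
    rw [e1, zero_mul]
    refine le_of_eq (Finset.sum_eq_zero fun x hx => ?_)
    rw [Finset.prod_eq_zero (Finset.mem_univ i) (hz _ (Fintype.mem_piFinset.1 hx i)), zero_mul]

open Classical in
theorem mainL : ∃ (c : Prog) (T : List ℕ → ℤ → ℕ) (q : Polynomial ℕ) (Λ : ℕ), 1 ≤ Λ ∧
    (∀ (L : List ℕ) (k : ℤ),
      Eval c (encS L k) (bit (decide ((k : ℝ) ≤ (L.map fun a : ℕ => √(a : ℝ)).sum))) (T L k)) ∧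
    ∀ (n : ℕ) (N : Fin n → ℕ) (A : Fin n → Finset ℕ) (w : Fin n → ℕ → ℝ),
      (∀ i, ∀ a ∈ A i, a ≤ N i ∧ 0 ≤ w i a) → (∀ i, ∑ a ∈ A i, w i a = 1) →
      (∀ (θ : ℝ) (g r : ℕ) (V : Finset ℕ), 0 < θ → θ ^ g ≤ 1 / 2 →
        V.card + (Finset.univ.filter fun i => ∃ a ∈ A i \ V,
          θ * ∑ b ∈ A i \ V, w i b < w i a).card ≤ r →
        (1 / 2 ≤ θ → ∀ ρ m : ℕ,
          ∑ x ∈ (Fintype.piFinset A).filter (fun x => ∃ (y : Fin n → ℕ) (k : ℤ),
            (∀ i, y i ≤ N i) ∧ (Finset.univ.filter fun i => y i ≠ x i).card ≤ ρ ∧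
            q.eval (n + ∑ i, Nat.size (N i) + Nat.size k.natAbs) *
              Λ ^ (m + r + ρ * (2 * g * Nat.size n + 3)) < T (List.ofFn y) k),
            ∏ i, w i (x i) ≤ θ ^ m) ∧
        ((∀ i, ∀ x ∈ A i, ∀ y ∈ A i, IsSquare (x * y)) →
          (∀ ρ m : ℕ,
            ∑ x ∈ (Fintype.piFinset A).filter (fun x => ∃ (y : Fin n → ℕ) (k : ℤ),
              (∀ i, y i ≤ N i) ∧ (Finset.univ.filter fun i => y i ≠ x i).card ≤ ρ ∧
              q.eval (n + ∑ i, Nat.size (N i) + Nat.size k.natAbs) *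
                Λ ^ (m + r + ρ * (2 * g * Nat.size n + 3)) < T (List.ofFn y) k),
              ∏ i, w i (x i) ≤ θ ^ m) ∧
          ∀ (ρ : ℕ) (y : (Fin n → ℕ) → Fin n → ℕ) (κ : (Fin n → ℕ) → ℤ),
            (∀ x ∈ Fintype.piFinset A, (∀ i, y x i ≤ N i) ∧
              (Finset.univ.filter fun i => y x i ≠ x i).card ≤ ρ) →
            (2 * Λ * θ ≤ 1 → ∀ B : ℕ,
              (∀ x ∈ Fintype.piFinset A, Nat.size (κ x).natAbs ≤ B) →
              ∑ x ∈ Fintype.piFinset A, (∏ i, w i (x i)) * (T (List.ofFn (y x)) (κ x) : ℝ) ≤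
                ((q.eval (n + ∑ i, Nat.size (N i) + B) *
                  Λ ^ (r + ρ * (2 * g * Nat.size n + 3)) : ℕ) : ℝ)) ∧
            ∀ a : ℝ, 0 ≤ a → 2 ^ a * θ ≤ 1 →
              ∑ x ∈ Fintype.piFinset A, (∏ i, w i (x i)) *
                max 0 (-Real.logb 2 |∑ i, √(y x i : ℝ) - κ x|) ^ a ≤
                (n + 2) * (8 * (∑ i, Nat.size (N i) + 2 : ℕ) *
                  2 ^ (r + ρ * (2 * g * Nat.size n + 3))) ^ a)) ∧
      (∀ t : ℕ, ((Finset.univ : Finset (Fin n)).image fun i => (A i, w i)).card ≤ t → ∀ ρ m : ℕ,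
        ∑ x ∈ (Fintype.piFinset A).filter (fun x => ∃ (y : Fin n → ℕ) (k : ℤ),
          (∀ i, y i ≤ N i) ∧ (Finset.univ.filter fun i => y i ≠ x i).card ≤ ρ ∧
          q.eval (n + ∑ i, Nat.size (N i) + Nat.size k.natAbs) *
            Λ ^ (m + t * (m + Nat.size n) + ρ * (2 * Nat.size n + 3)) < T (List.ofFn y) k),
          ∏ i, w i (x i) ≤ 2 * (1 / 2) ^ m) := by
  obtain ⟨c, T, q, Λ, hΛ, hE, h⟩ := mainV
  refine ⟨c, T, q, Λ, hΛ, hE, fun n N A w hNw hw1 => ⟨h n N A w hNw hw1, ?_⟩⟩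
  intro t ht ρ m
  have hΛ0 : 0 < Λ := hΛ
  have h0 : ∀ i, ∀ a ∈ A i, 0 ≤ w i a := fun i a ha => (hNw i a ha).2
  have hhalf : (0 : ℝ) < 1 / 2 := by norm_num
  have hpow : (0 : ℝ) < (1 / 2) ^ m := by positivity
  set P : (Fin n → ℕ) → Prop := fun x => ∃ (y : Fin n → ℕ) (k : ℤ),
        (∀ i, y i ≤ N i) ∧ (Finset.univ.filter fun i => y i ≠ x i).card ≤ ρ ∧
        q.eval (n + ∑ i, Nat.size (N i) + Nat.size k.natAbs) *
          Λ ^ (m + t * (m + Nat.size n) + ρ * (2 * Nat.size n + 3)) < T (List.ofFn y) k with hP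
  obtain ⟨V, hVc, hV⟩ := heavyL (Finset.univ.image fun i => (A i, w i))
    (by
      intro p hp a ha
      obtain ⟨i, -, rfl⟩ := Finset.mem_image.1 hp
      exact h0 i a ha)
    (by
      intro p hp
      obtain ⟨i, -, rfl⟩ := Finset.mem_image.1 hp
      exact hw1 i) (m + Nat.size n)
  have hVt : V.card ≤ t * (m + Nat.size n) := hVc.trans (Nat.mul_le_mul_right _ ht)
  have hV' : ∀ i, (∀ a ∈ A i \ V, w i a ≤ 1 / 2 * ∑ b ∈ A i \ V, w i b) ∨
      ∑ b ∈ A i \ V, w i b ≤ (1 / 2) ^ (m + Nat.size n) := fun i =>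
    hV (A i, w i) (Finset.mem_image.2 ⟨i, Finset.mem_univ _, rfl⟩)
  -- the places with small rest are conditioned to have their values in `V`
  set A' : Fin n → Finset ℕ := fun i =>
    if (∀ a ∈ A i \ V, w i a ≤ 1 / 2 * ∑ b ∈ A i \ V, w i b) then A i else A i ∩ V with hA'
  have hsub : ∀ i, A' i ⊆ A i := by
    intro i
    rw [hA']
    dsimp only
    split_ifs
    · exact subset_rfl
    · exact Finset.inter_subset_left
  have h0' : ∀ i, ∀ a ∈ A' i, 0 ≤ w i a := fun i a ha => h0 i a (hsub i ha)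
  have hpsub : Fintype.piFinset A' ⊆ Fintype.piFinset A := Fintype.piFinset_subset _ _ hsub
  have hW : ∀ x ∈ Fintype.piFinset A, 0 ≤ ∏ i, w i (x i) := fun x hx =>
    Finset.prod_nonneg fun i _ => h0 i _ (Fintype.mem_piFinset.1 hx i)
  have hZ : ∀ i, 1 - (1 / 2 : ℝ) ^ (m + Nat.size n) ≤ ∑ a ∈ A' i, w i a := by
    intro i
    rw [hA']
    dsimp only
    split_ifs with hi
    · rw [hw1 i]
      have : (0 : ℝ) < (1 / 2) ^ (m + Nat.size n) := by positivity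
      linarith
    · have e3 := Finset.sum_inter_add_sum_sdiff (A i) V (w i)
      rw [hw1 i] at e3
      have e4 := (hV' i).resolve_left hi
      linarith
  have hZ1 : ∏ i, ∑ a ∈ A' i, w i a ≤ 1 := by
    refine Finset.prod_le_one (fun i _ => Finset.sum_nonneg fun a ha => h0' i a ha) fun i _ => ?_
    rw [← hw1 i]
    exact Finset.sum_le_sum_of_subset_of_nonneg (hsub i) fun a ha _ => h0 i a ha
  have hMu : 1 - (1 / 2 : ℝ) ^ m ≤ ∏ i, ∑ a ∈ A' i, w i a := by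
    have hz1 : (1 / 2 : ℝ) ^ (m + Nat.size n) ≤ 1 := pow_le_one₀ (by norm_num) (by norm_num)
    have h3 : (1 - (1 / 2 : ℝ) ^ (m + Nat.size n)) ^ n ≤ ∏ i, ∑ a ∈ A' i, w i a := by
      have h4 := Finset.prod_le_prod (s := (Finset.univ : Finset (Fin n)))
        (f := fun _ => 1 - (1 / 2 : ℝ) ^ (m + Nat.size n)) (g := fun i => ∑ a ∈ A' i, w i a)
        (fun i _ => by linarith) fun i _ => hZ i
      rwa [Finset.prod_const, Finset.card_univ, Fintype.card_fin] at h4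
    refine le_trans ?_ h3
    have hb := one_add_mul_le_pow (a := -((1 / 2 : ℝ) ^ (m + Nat.size n))) (by linarith) n
    have e4 : (1 : ℝ) + -((1 / 2 : ℝ) ^ (m + Nat.size n)) =
      1 - (1 / 2 : ℝ) ^ (m + Nat.size n) := by ring
    rw [e4] at hb
    refine le_trans ?_ hb
    have hn2 : (n : ℝ) ≤ 2 ^ Nat.size n := by
      exact_mod_cast (Nat.lt_size_self n).le
    have h6 : (n : ℝ) * (1 / 2) ^ (m + Nat.size n) ≤ (1 / 2) ^ m := by
      calc (n : ℝ) * (1 / 2) ^ (m + Nat.size n) ≤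
            2 ^ Nat.size n * (1 / 2) ^ (m + Nat.size n) :=
            mul_le_mul_of_nonneg_right hn2 (by positivity)
        _ = (1 / 2) ^ m := by
            rw [pow_add, mul_comm ((1 / 2 : ℝ) ^ m), ← mul_assoc, ← mul_pow]
            norm_num
    linarith
  have hmain : ∑ x ∈ Fintype.piFinset A', (∏ i, w i (x i)) * (if P x then 1 else 0) ≤
      (∏ i, ∑ a ∈ A' i, w i a) * (1 / 2) ^ m := by
    refine inner2 A' w h0' _ fun hpos => ?_
    have hE0 : (Finset.univ.filter fun i => ∃ a ∈ A' i \ V,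
        1 / 2 * ∑ b ∈ A' i \ V, w i b / ∑ a ∈ A' i, w i a <
          w i a / ∑ a ∈ A' i, w i a) = ∅ := by
      rw [Finset.filter_eq_empty_iff]
      rintro i - ⟨a, ha, hlt⟩
      rw [← Finset.sum_div, ← mul_div_assoc, div_lt_div_iff_of_pos_right (hpos i)] at hlt
      revert ha hlt
      rw [hA']
      dsimp only
      split_ifs with hi
      · intro ha hlt
        exact absurd (hi a ha) (not_le.2 hlt)
      · intro ha _
        rw [Finset.mem_sdiff, Finset.mem_inter] at ha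
        exact ha.2 ha.1.2
    have h3 := (h n N A' (fun i a => w i a / ∑ a ∈ A' i, w i a)
      (fun i a ha => ⟨(hNw i a (hsub i ha)).1, div_nonneg (h0' i a ha) (hpos i).le⟩)
      (fun i => by
        rw [← Finset.sum_div]
        exact div_self (hpos i).ne') (1 / 2) 1 (t * (m + Nat.size n)) V hhalf (by norm_num)
      (by
        rw [hE0]
        simpa using hVt)).1 le_rfl ρ m
    rw [mul_one] at h3
    rw [Finset.sum_filter] at h3
    refine le_trans (le_of_eq (Finset.sum_congr rfl fun x _ => ?_)) h3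
    split_ifs <;> simp
  have e1 : ∑ x ∈ (Fintype.piFinset A).filter P, ∏ i, w i (x i) =
      ∑ x ∈ Fintype.piFinset A, (∏ i, w i (x i)) * (if P x then 1 else 0) := by
    rw [Finset.sum_filter]
    refine Finset.sum_congr rfl fun x _ => ?_
    split_ifs <;> simp
  have e2 := Finset.sum_sdiff hpsub (f := fun x => (∏ i, w i (x i)) * (if P x then 1 else 0))
  have e3 := Finset.sum_sdiff hpsub (f := fun x => ∏ i, w i (x i))
  have e4 : ∑ x ∈ Fintype.piFinset A, ∏ i, w i (x i) = 1 := by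
    rw [← Finset.prod_univ_sum]
    exact Finset.prod_eq_one fun i _ => hw1 i
  have e5 : ∑ x ∈ Fintype.piFinset A', ∏ i, w i (x i) = ∏ i, ∑ a ∈ A' i, w i a := by
    rw [← Finset.prod_univ_sum]
  have e6 : ∑ x ∈ Fintype.piFinset A \ Fintype.piFinset A',
      (∏ i, w i (x i)) * (if P x then 1 else 0) ≤
      ∑ x ∈ Fintype.piFinset A \ Fintype.piFinset A', ∏ i, w i (x i) := by
    refine Finset.sum_le_sum fun x hx => ?_
    have hx0 := hW x (Finset.mem_sdiff.1 hx).1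
    split_ifs
    · rw [mul_one]
    · rw [mul_zero]
      exact hx0
  have h8 : (∏ i, ∑ a ∈ A' i, w i a) * (1 / 2) ^ m ≤ (1 / 2) ^ m :=
    mul_le_of_le_one_left hpow.le hZ1
  rw [e1]
  linarith

end Pool.Agent.H84.EV
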