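import Pool.Agent.H84.EV.Cls
import Pool.Agent.H84.EV.Avg

/-!
# Product distributions with common heavy values
-/

set_option autoImplicit false

namespace Pool.Agent.H84.EV

open Pool.Agent.H92.SR Pool.Agent.H92.SR.Tr Pool.Agent.H8.SS Pool.Agent.H41.RC

open Classical in
theorem mainV : ∃ (c : Prog) (T : List ℕ → ℤ → ℕ) (q : Polynomial ℕ) (Λ : ℕ), 1 ≤ Λ ∧
    (∀ (L : List ℕ) (k : ℤ),
      Eval c (encS L k) (bit (decide ((k : ℝ) ≤ (L.map fun a : ℕ => √(a : ℝ)).sum))) (T L k)) ∧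
    ∀ (n : ℕ) (N : Fin n → ℕ) (A : Fin n → Finset ℕ) (w : Fin n → ℕ → ℝ),
      (∀ i, ∀ a ∈ A i, a ≤ N i ∧ 0 ≤ w i a) → (∀ i, ∑ a ∈ A i, w i a = 1) →
      ∀ (θ : ℝ) (g r : ℕ) (V : Finset ℕ), 0 < θ → θ ^ g ≤ 1 / 2 →
        V.card + (Finset.univ.filter fun i => ∃ a ∈ A i \ V,
          θ * ∑ b ∈ A i \ V, w i b < w i a).card ≤ r →
        (1 / 2 ≤ θ → ∀ ρ m : ℕ,
          ∑ x ∈ (Fintype.piFinset A).filter (fun x => ∃ (y : Fin n → ℕ) (k : ℤ),
            (∀ i, y i ≤ N i) ∧ (Finset.univ.filter fun i => y i ≠ x i).card ≤ ρ ∧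
            q.eval (n + ∑ i, Nat.size (N i) + Nat.size k.natAbs) *
              Λ ^ (m + r + ρ * (2 * g * Nat.size n + 3)) < T (List.ofFn y) k),
            ∏ i, w i (x i) ≤ θ ^ m) ∧
        ((∀ i, ∀ x ∈ A i, ∀ y ∈ A i, IsSquare (x * y)) →
          (∀ ρ m : ℕ,
            ∑ x ∈ (Fintype.piFinset A).filter (fun x => ∃ (y : Fin n → ℕ) (k : ℤ),
              (∀ i, y i ≤ N i) ∧ (Finset.univ.filter fun i => y i ≠ x i).card ≤ ρ ∧
              q.eval (n + ∑ i, Nat.size (N i) + Nat.size k.natAbs) *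
                Λ ^ (m + r + ρ * (2 * g * Nat.size n + 3)) < T (List.ofFn y) k),
              ∏ i, w i (x i) ≤ θ ^ m) ∧
          ∀ (ρ : ℕ) (y : (Fin n → ℕ) → Fin n → ℕ) (κ : (Fin n → ℕ) → ℤ),
            (∀ x ∈ Fintype.piFinset A, (∀ i, y x i ≤ N i) ∧
              (Finset.univ.filter fun i => y x i ≠ x i).card ≤ ρ) →
            (2 * Λ * θ ≤ 1 → ∀ B : ℕ,
              (∀ x ∈ Fintype.piFinset A, Nat.size (κ x).natAbs ≤ B) →
              ∑ x ∈ Fintype.piFinset A, (∏ i, w i (x i)) * (T (List.ofFn (y x)) (κ x) : ℝ) ≤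
                ((q.eval (n + ∑ i, Nat.size (N i) + B) *
                  Λ ^ (r + ρ * (2 * g * Nat.size n + 3)) : ℕ) : ℝ)) ∧
            ∀ a : ℝ, 0 ≤ a → 2 ^ a * θ ≤ 1 →
              ∑ x ∈ Fintype.piFinset A, (∏ i, w i (x i)) *
                max 0 (-Real.logb 2 |∑ i, √(y x i : ℝ) - κ x|) ^ a ≤
                (n + 2) * (8 * (∑ i, Nat.size (N i) + 2 : ℕ) *
                  2 ^ (r + ρ * (2 * g * Nat.size n + 3))) ^ a) := by
  obtain ⟨c, T, q, Λ, hΛ, hE, h⟩ := mainC
  refine ⟨c, T, q, Λ, hΛ, hE, ?_⟩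
  intro n N A w hNw hw1 θ g r V hθpos hθg hr
  have h0 : ∀ i, ∀ a ∈ A i, 0 ≤ w i a := fun i a ha => (hNw i a ha).2
  set E : Finset (Fin n) := Finset.univ.filter fun i => ∃ a ∈ A i \ V,
    θ * ∑ b ∈ A i \ V, w i b < w i a with hEdef
  have hsubp : ∀ H : Finset (Fin n), ∀ x ∈ Fintype.piFinset (AH A V H),
      x ∈ Fintype.piFinset A := fun H x hx => Fintype.mem_piFinset.2 fun i =>
    AH_sub A V H i (Fintype.mem_piFinset.1 hx i)
  have hC : ∀ H : Finset (Fin n), (∀ i, 0 < mass A w V H i) → _ := fun H hH =>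
    h n N (AH A V H) (fun i a => w i a / mass A w V H i)
      (fun i a ha => ⟨(hNw i a (AH_sub A V H i ha)).1,
        div_nonneg (h0 i a (AH_sub A V H i ha)) (hH i).le⟩)
      (fun i => by
        rw [← Finset.sum_div]
        exact div_self (hH i).ne') θ g r hθpos hθg
      (Finset.univ.filter fun i => i ∉ H ∧ i ∉ E)
      (by
        intro i hi a ha
        rw [Finset.mem_filter] at hi
        obtain ⟨-, hi1, hi2⟩ := hi
        have e1 : AH A V H i = A i \ V := if_neg hi1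
        have e2 : mass A w V H i = ∑ b ∈ A i \ V, w i b := by
          unfold mass
          rw [e1]
        rw [e1] at ha
        rw [div_le_iff₀ (hH i), e2]
        by_contra hlt
        exact hi2 (Finset.mem_filter.2 ⟨Finset.mem_univ _, a, ha, not_le.1 hlt⟩))
      (by
        intro x hx
        refine le_trans (Finset.card_le_card (t := V.image sf ∪ E.image fun i => sf (x i)) ?_)
          ((Finset.card_union_le _ _).trans
            ((add_le_add Finset.card_image_le Finset.card_image_le).trans hr))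
        intro d hd
        obtain ⟨i, hi, rfl⟩ := Finset.mem_image.1 hd
        rw [Finset.mem_sdiff, Finset.mem_filter, not_and] at hi
        have hi2 := hi.2 (Finset.mem_univ _)
        rw [Finset.mem_union]
        by_cases hiH : i ∈ H
        · left
          have hxi := hx i
          unfold AH at hxi
          rw [if_pos hiH] at hxi
          exact Finset.mem_image_of_mem _ (Finset.mem_inter.1 hxi).2
        · right
          refine Finset.mem_image.2 ⟨i, ?_, rfl⟩
          by_contra hiE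
          exact hi2 ⟨hiH, hiE⟩)
  refine ⟨?_, ?_⟩
  · intro hθ2 ρ m
    refine avgP A w V h0 hw1 _ fun H hH => ?_
    exact (hC H hH).1 hθ2 ρ m
  · intro hsq
    have hsq' : ∀ H : Finset (Fin n), ∀ i, ∀ x ∈ AH A V H i, ∀ y ∈ AH A V H i,
        IsSquare (x * y) := fun H i x hx y hy =>
      hsq i x (AH_sub A V H i hx) y (AH_sub A V H i hy)
    refine ⟨?_, ?_⟩
    · intro ρ m
      refine avgP A w V h0 hw1 _ fun H hH => ?_
      exact ((hC H hH).2 (hsq' H)).1 ρ m
    · intro ρ y κ hy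
      refine ⟨?_, ?_⟩
      · intro hΛθ B hκ
        refine avgH A w V h0 hw1 _ fun H hH => ?_
        exact (((hC H hH).2 (hsq' H)).2 ρ y κ fun x hx => hy x (hsubp H x hx)).1 hΛθ B
          fun x hx => hκ x (hsubp H x hx)
      · intro a ha h2θ
        refine avgH A w V h0 hw1 _ fun H hH => ?_
        exact (((hC H hH).2 (hsq' H)).2 ρ y κ fun x hx => hy x (hsubp H x hx)).2 a ha h2θ

end Pool.Agent.H84.EV
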